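import Pool.Agent.N65.GP.Defs2

/-!
Project GP, second part, leaf RAD: residues of forms of the second kind.
-/

set_option autoImplicit false

namespace Pool.Agent.N342.GP2

open Complex Polynomial Pool.Agent.N65.GP

theorem diff_eval (G : Polynomial ℂ[X]) (Y : ℂ → ℂ) (z : ℂ) (hY : DifferentiableAt ℂ Y z) :
    DifferentiableAt ℂ (fun x => G.evalEval x (Y x)) z := by
  induction G using Polynomial.induction_on' with
  | add p q hp hq =>
    simp only [Polynomial.evalEval_add]
    exact hp.add hq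
  | monomial n a =>
    have h : ∀ x y : ℂ, (monomial n a).evalEval x y = a.eval x * y ^ n := by
      intro x y
      rw [← Polynomial.C_mul_X_pow_eq_monomial]
      simp [Polynomial.evalEval]
    simp only [h]
    exact (Polynomial.differentiable a).differentiableAt.mul (hY.pow n)

/-- the loop integral over a circle -/
theorem int_circle (δ : Loop) (ρ : ℝ) (Y : ℂ → ℂ) (g : ℂ → ℂ → ℂ)
    (hx : ∀ t : ℝ, δ.x t = ρ * Complex.exp (2 * Real.pi * t * Complex.I))
    (hy : ∀ t : ℝ, δ.y t = Y (δ.x t)) : δ.int g = ∮ z in C(0, ρ), g z (Y z) := by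
  have h1 : δ.x = circleMap 0 ρ ∘ fun t : ℝ => 2 * Real.pi * t := by
    funext t
    rw [hx, Function.comp, circleMap, zero_add]
    push_cast
    rfl
  have h2 : ∀ t : ℝ, deriv δ.x t = (2 * Real.pi : ℝ) • (circleMap 0 ρ (2 * Real.pi * t) * I) := by
    intro t
    have h3 : HasDerivAt (fun t : ℝ => 2 * Real.pi * t) (2 * Real.pi) t := by
      simpa using (hasDerivAt_id t).const_mul (2 * Real.pi)
    have h4 := HasDerivAt.scomp t (hasDerivAt_circleMap 0 ρ (2 * Real.pi * t)) h3
    rw [h1]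
    exact h4.deriv
  have h5 : δ.int g = ∫ t in (0 : ℝ)..1, (2 * Real.pi : ℝ) • (fun θ : ℝ =>
      deriv (circleMap 0 ρ) θ • g (circleMap 0 ρ θ) (Y (circleMap 0 ρ θ))) (2 * Real.pi * t) := by
    unfold Loop.int
    apply intervalIntegral.integral_congr
    intro t _
    simp only
    rw [h2, hy, deriv_circleMap, h1, Function.comp]
    simp only [smul_eq_mul, real_smul]
    ring
  rw [h5, intervalIntegral.integral_smul]
  have h6 := intervalIntegral.smul_integral_comp_mul_left (a := (0 : ℝ)) (b := 1) (fun θ : ℝ =>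
      deriv (circleMap 0 ρ) θ • g (circleMap 0 ρ θ) (Y (circleMap 0 ρ θ))) (2 * Real.pi)
  rw [mul_zero, mul_one] at h6
  exact h6

theorem norm_circle (ρ : ℝ) (hρ : 0 < ρ) (t : ℝ) :
    ‖(ρ : ℂ) * Complex.exp (2 * Real.pi * t * Complex.I)‖ = ρ := by
  rw [norm_mul, Complex.norm_real, Real.norm_of_nonneg hρ.le,
    show (2 * Real.pi * t * Complex.I : ℂ) = ((2 * Real.pi * t : ℝ) : ℂ) * Complex.I by push_cast; ring,
    Complex.norm_exp_ofReal_mul_I, mul_one]

theorem t_RAD (hCIR : S_CIR) : S_RAD := by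
  intro k C R b ρ δ hρ hδ G ⟨RG, hG⟩ i
  have hR := b.pos
  obtain ⟨ρ', hρ'⟩ : ∃ ρ' : ℝ, ρ' = max RG ρ + 1 := ⟨_, rfl⟩
  have h1 : RG < ρ' := by
    rw [hρ']
    linarith [le_max_left RG ρ]
  have h2 : ρ < ρ' := by
    rw [hρ']
    linarith [le_max_right RG ρ]
  obtain ⟨δ', hδ', hOn⟩ := hCIR k C R b ρ' (hρ.trans h2)
  have h3 : (δ' i).int (fun x y => G.evalEval x y) = 0 := by
    apply hG _ (hOn i)
    intro t
    rw [(hδ' i).1, norm_circle ρ' (by linarith)]
    exact h1
  rw [int_circle (δ' i) ρ' (b.yb i) _ (hδ' i).1 (hδ' i).2] at h3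
  rw [int_circle (δ i) ρ (b.yb i) _ (hδ i).1 (hδ i).2]
  have hd : ∀ z : ℂ, R < ‖z‖ → DifferentiableAt ℂ (fun z => G.evalEval z (b.yb i z)) z := by
    intro z hz
    apply diff_eval
    have hopen : IsOpen {c : ℂ | R < ‖c‖} := isOpen_lt continuous_const continuous_norm
    exact (b.diffY i z hz).differentiableAt (hopen.mem_nhds hz)
  refine (Complex.circleIntegral_eq_of_differentiable_on_annulus_off_countable (c := 0)
    (f := fun z => G.evalEval z (b.yb i z)) (hR.trans hρ) h2.le Set.countable_empty ?_ ?_).symm.trans h3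
  · intro z hz
    apply ContinuousAt.continuousWithinAt
    apply (hd z ?_).continuousAt
    have h4 := hz.2
    rw [Metric.mem_ball, dist_zero_right, not_lt] at h4
    linarith
  · intro z hz
    apply hd
    have h4 := hz.1.2
    rw [Metric.mem_closedBall, dist_zero_right, not_le] at h4
    linarith

end Pool.Agent.N342.GP2
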